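import Pool.Agent.W787.PS.StmA

/-!
# The gradient of the logarithmic potential (task PS-POTD)
-/

set_option autoImplicit false

namespace Pool.Agent.W67.PS

open MeasureTheory Filter Topology Set Metric
open Pool.Agent.W787.PS
open scoped Convolution

theorem intOn_log (r : ℝ) : IntegrableOn (fun z : ℂ => Real.log ‖z‖) (ball 0 r) volume := by
  rw [integrableOn_fun_norm_addHaar (μ := (volume : Measure ℂ)) (f := Real.log) (r := r)]
  rw [Complex.finrank_real_complex]
  have : (fun y : ℝ => y ^ (2 - 1) • Real.log y) = fun y => y * Real.log y := by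
    funext y; simp
  rw [this]
  apply IntegrableOn.mono_set (t := Icc 0 r) _ Ioo_subset_Icc_self
  exact (Real.continuous_mul_log.continuousOn).integrableOn_Icc

theorem intOn_inv (r : ℝ) : IntegrableOn (fun z : ℂ => ‖z‖⁻¹) (ball 0 r) volume := by
  rw [integrableOn_fun_norm_addHaar (μ := (volume : Measure ℂ)) (f := fun y => y⁻¹) (r := r)]
  rw [Complex.finrank_real_complex]
  have h1 : IntegrableOn (fun _ : ℝ => (1 : ℝ)) (Ioo 0 r) volume := by
    apply IntegrableOn.mono_set (t := Icc 0 r) _ Ioo_subset_Icc_self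
    exact continuousOn_const.integrableOn_Icc
  refine h1.congr_fun ?_ measurableSet_Ioo
  intro y hy
  have : y ≠ 0 := ne_of_gt hy.1
  simp [this]

theorem locInt_sub {k : ℂ → ℝ} (hk : ∀ r : ℝ, IntegrableOn k (ball 0 r) volume) (x : ℂ) :
    LocallyIntegrable (fun y : ℂ => k (x - y)) volume := by
  intro y
  refine ⟨ball x (‖x - y‖ + 1), isOpen_ball.mem_nhds ?_, ?_⟩
  · rw [mem_ball, dist_comm, dist_eq_norm]; linarith
  · have h1 := hk (‖x - y‖ + 1)
    have h2 : MeasurePreserving (fun z : ℂ => x - z) volume volume :=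
      Measure.measurePreserving_sub_left volume x
    have h3 := (h2.integrableOn_comp_preimage (MeasurableEquiv.subLeft x).measurableEmbedding
      (f := k) (s := ball 0 (‖x - y‖ + 1))).mpr h1
    have h4 : (fun z : ℂ => x - z) ⁻¹' (ball 0 (‖x - y‖ + 1)) = ball x (‖x - y‖ + 1) := by
      ext z; rw [mem_preimage, mem_ball, mem_ball, dist_comm z x, dist_eq_norm, dist_eq_norm, sub_zero]
    rw [h4] at h3
    exact h3

theorem locInt_ker {k : ℂ → ℝ} (hk : ∀ r : ℝ, IntegrableOn k (ball 0 r) volume) :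
    LocallyIntegrable k volume := by
  intro y
  refine ⟨ball 0 (‖y‖ + 1), isOpen_ball.mem_nhds ?_, hk _⟩
  rw [mem_ball, dist_zero_right]; linarith

theorem int_mul {k g : ℂ → ℝ} (hk : LocallyIntegrable k volume) (hg : Continuous g)
    (hc : HasCompactSupport g) : Integrable (fun y => k y * g y) :=
  hk.integrable_smul_right_of_hasCompactSupport hg hc

/-- the kernel of the gradient -/
theorem locInt_grad (x v : ℂ) :
    LocallyIntegrable (fun y : ℂ => inner ℝ (x - y) v / ‖x - y‖ ^ 2) volume := by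
  have h1 : LocallyIntegrable (fun y : ℂ => ‖v‖ * ‖x - y‖⁻¹) volume := by
    have h := locInt_sub intOn_inv x
    have := h.smul ‖v‖
    exact this
  refine h1.mono ?_ (Eventually.of_forall fun y => ?_)
  · exact (Measurable.div (by fun_prop) (by fun_prop)).aestronglyMeasurable
  · rw [Real.norm_eq_abs, Real.norm_eq_abs, abs_div, abs_of_nonneg (by positivity : (0:ℝ) ≤ ‖x - y‖ ^ 2),
      abs_of_nonneg (by positivity : (0:ℝ) ≤ ‖v‖ * ‖x - y‖⁻¹)]
    by_cases hxy : ‖x - y‖ = 0
    · rw [hxy]; simp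
    · have hpos : 0 < ‖x - y‖ := lt_of_le_of_ne (norm_nonneg _) (Ne.symm hxy)
      rw [div_le_iff₀ (by positivity)]
      have h2 := abs_real_inner_le_norm (x - y) v
      have h3 : ‖v‖ * ‖x - y‖⁻¹ * ‖x - y‖ ^ 2 = ‖x - y‖ * ‖v‖ := by
        field_simp
      rw [h3]
      exact h2

theorem pot_eq (f : ℂ → ℝ) (x : ℂ) : pot f x = -(1 / (2 * Real.pi)) *
    ((fun z : ℂ => Real.log ‖z‖) ⋆[ContinuousLinearMap.mul ℝ ℝ, volume] f) x := by
  rw [convolution_eq_swap]
  rfl

theorem fderiv_pot (f : ℂ → ℝ) (hf : ContDiff ℝ 1 f) (hc : HasCompactSupport f) (x : ℂ) :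
    HasFDerivAt (pot f) (-(1 / (2 * Real.pi)) •
      ((fun z : ℂ => Real.log ‖z‖) ⋆[(ContinuousLinearMap.mul ℝ ℝ).precompR ℂ, volume] fderiv ℝ f) x) x := by
  have h := (hc.hasFDerivAt_convolution_right (ContinuousLinearMap.mul ℝ ℝ)
    (locInt_ker intOn_log) hf x).const_mul (-(1 / (2 * Real.pi)))
  have e : pot f = fun x => -(1 / (2 * Real.pi)) *
    ((fun z : ℂ => Real.log ‖z‖) ⋆[ContinuousLinearMap.mul ℝ ℝ, volume] f) x := by
    funext y; exact pot_eq f y
  rw [e]
  exact h

theorem fderiv_pot_apply (f : ℂ → ℝ) (hf : ContDiff ℝ 1 f) (hc : HasCompactSupport f) (x v : ℂ) :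
    fderiv ℝ (pot f) x v = pot (fun y => fderiv ℝ f y v) x := by
  rw [(fderiv_pot f hf hc x).fderiv, pot_eq]
  rw [ContinuousLinearMap.smul_apply,
    convolution_precompR_apply _ (locInt_ker intOn_log) (hc.fderiv ℝ) (hf.continuous_fderiv one_ne_zero)]
  rfl

/-- the regularised kernel -/
noncomputable def GG (x : ℂ) (e : ℝ) (y : ℂ) : ℝ := (1 / 2) * Real.log (‖x - y‖ ^ 2 + e ^ 2)

theorem GG_deriv (x : ℂ) {e : ℝ} (he : 0 < e) (y v : ℂ) :
    DifferentiableAt ℝ (GG x e) y ∧
      fderiv ℝ (GG x e) y v = -(inner ℝ (x - y) v / (‖x - y‖ ^ 2 + e ^ 2)) := by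
  have h0 : HasFDerivAt (fun y : ℂ => x - y) (-(ContinuousLinearMap.id ℝ ℂ)) y := by
    exact (hasFDerivAt_id (𝕜 := ℝ) y).const_sub x
  have h1 := h0.norm_sq
  have h2 := h1.add_const (e ^ 2)
  have hne : ‖x - y‖ ^ 2 + e ^ 2 ≠ 0 := by positivity
  have h3 := (h2.log hne).const_mul (1 / 2 : ℝ)
  refine ⟨h3.differentiableAt, ?_⟩
  have h4 : fderiv ℝ (GG x e) y = _ := h3.fderiv
  rw [h4]
  simp only [ContinuousLinearMap.smul_apply, smul_eq_mul, ContinuousLinearMap.comp_apply,
    ContinuousLinearMap.neg_apply, ContinuousLinearMap.id_apply, innerSL_apply_apply, inner_neg_right,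
    ContinuousLinearMap.coe_smul', Pi.smul_apply, nsmul_eq_mul]
  push_cast
  field_simp

theorem ibp (f : ℂ → ℝ) (hf : ContDiff ℝ 1 f) (hc : HasCompactSupport f) (x v : ℂ) {e : ℝ}
    (he : 0 < e) :
    ∫ y, GG x e y * fderiv ℝ f y v = ∫ y, inner ℝ (x - y) v / (‖x - y‖ ^ 2 + e ^ 2) * f y := by
  have hGc : Continuous (GG x e) := by
    rw [continuous_iff_continuousAt]
    intro y
    exact ((GG_deriv x he y 0).1).continuousAt
  have hfd : Continuous (fun y => fderiv ℝ f y v) :=
    (hf.continuous_fderiv one_ne_zero).clm_apply continuous_const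
  have hfc : HasCompactSupport (fun y => fderiv ℝ f y v) := hc.fderiv_apply ℝ v
  have hDc : Continuous (fun y : ℂ => inner ℝ (x - y) v / (‖x - y‖ ^ 2 + e ^ 2)) := by
    refine Continuous.div (by fun_prop) (by fun_prop) (fun y => ?_)
    positivity
  have hDeq : (fun y => fderiv ℝ (GG x e) y v) =
      fun y => -(inner ℝ (x - y) v / (‖x - y‖ ^ 2 + e ^ 2)) := by
    funext y; exact (GG_deriv x he y v).2
  have key := integral_mul_fderiv_eq_neg_fderiv_mul_of_integrable (μ := (volume : Measure ℂ))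
    (f := GG x e) (g := f) (v := v) ?_ ?_ ?_ (fun y _ => (GG_deriv x he y 0).1)
    (fun y _ => (hf.differentiable one_ne_zero) y)
  · rw [key, ← integral_neg]
    refine integral_congr_ae (Eventually.of_forall fun y => ?_)
    simp only
    rw [(GG_deriv x he y v).2]
    ring
  · have h1 : Integrable (fun y => -(inner ℝ (x - y) v / (‖x - y‖ ^ 2 + e ^ 2)) * f y) :=
      int_mul hDc.neg.locallyIntegrable hf.continuous hc
    refine h1.congr (Eventually.of_forall fun y => ?_)
    simp only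
    rw [(GG_deriv x he y v).2]
  · exact int_mul hGc.locallyIntegrable hfd hfc
  · exact int_mul hGc.locallyIntegrable hf.continuous hc

theorem GG_bound (x : ℂ) {e : ℝ} (he : 0 < e) (he1 : e ≤ 1) (y : ℂ) (hxy : x ≠ y) :
    |GG x e y| ≤ |Real.log ‖x - y‖| + (1 / 2) * Real.log (‖x - y‖ ^ 2 + 1) := by
  have hpos : 0 < ‖x - y‖ := norm_pos_iff.mpr (sub_ne_zero.mpr hxy)
  have h1 : Real.log ‖x - y‖ ≤ GG x e y := by
    unfold GG
    have : Real.log ‖x - y‖ = (1 / 2) * Real.log (‖x - y‖ ^ 2) := by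
      rw [Real.log_pow]; push_cast; ring
    rw [this]
    have := Real.log_le_log (by positivity : 0 < ‖x - y‖ ^ 2)
      (by nlinarith [sq_nonneg e] : ‖x - y‖ ^ 2 ≤ ‖x - y‖ ^ 2 + e ^ 2)
    linarith
  have h2 : GG x e y ≤ (1 / 2) * Real.log (‖x - y‖ ^ 2 + 1) := by
    unfold GG
    have := Real.log_le_log (by positivity : 0 < ‖x - y‖ ^ 2 + e ^ 2)
      (by nlinarith : ‖x - y‖ ^ 2 + e ^ 2 ≤ ‖x - y‖ ^ 2 + 1)
    linarith
  have h3 : 0 ≤ Real.log (‖x - y‖ ^ 2 + 1) := Real.log_nonneg (by nlinarith [sq_nonneg ‖x - y‖])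
  rw [abs_le]
  constructor
  · have := neg_abs_le (Real.log ‖x - y‖)
    linarith
  · have := abs_nonneg (Real.log ‖x - y‖)
    linarith

theorem ibp_limit (f : ℂ → ℝ) (hf : ContDiff ℝ 1 f) (hc : HasCompactSupport f) (x v : ℂ) :
    ∫ y, Real.log ‖x - y‖ * fderiv ℝ f y v = ∫ y, inner ℝ (x - y) v / ‖x - y‖ ^ 2 * f y := by
  have hfd : Continuous (fun y => fderiv ℝ f y v) :=
    (hf.continuous_fderiv one_ne_zero).clm_apply continuous_const
  have hfc : HasCompactSupport (fun y => fderiv ℝ f y v) := hc.fderiv_apply ℝ v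
  have hae : ∀ᵐ y ∂(volume : Measure ℂ), x ≠ y := by
    have : volume ({x} : Set ℂ) = 0 := by simp
    filter_upwards [measure_eq_zero_iff_ae_notMem.mp this] with y hy
    exact fun h => hy h.symm
  set s : ℕ → ℝ := fun n => 1 / ((n : ℝ) + 1) with hs
  have hs0 : ∀ n, 0 < s n := fun n => by rw [hs]; positivity
  have hs1 : ∀ n, s n ≤ 1 := fun n => by
    rw [hs]
    simp only
    rw [div_le_one (by positivity)]
    have : (0 : ℝ) ≤ n := Nat.cast_nonneg n
    linarith
  have hslim : Tendsto s atTop (𝓝 0) := tendsto_one_div_add_atTop_nhds_zero_nat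
  have hL : Tendsto (fun n => ∫ y, GG x (s n) y * fderiv ℝ f y v) atTop
      (𝓝 (∫ y, Real.log ‖x - y‖ * fderiv ℝ f y v)) := by
    refine tendsto_integral_of_dominated_convergence
      (fun y => (|Real.log ‖x - y‖| + (1 / 2) * Real.log (‖x - y‖ ^ 2 + 1)) * |fderiv ℝ f y v|)
      (fun n => ?_) ?_ (fun n => ?_) ?_
    · have hGc : Continuous (GG x (s n)) := by
        rw [continuous_iff_continuousAt]
        intro y
        exact ((GG_deriv x (hs0 n) y 0).1).continuousAt
      exact (hGc.mul hfd).aestronglyMeasurable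
    · have h1 : LocallyIntegrable (fun y : ℂ => |Real.log ‖x - y‖|) volume := by
        refine (locInt_sub intOn_log x).mono ?_ (Eventually.of_forall fun y => ?_)
        · exact (by fun_prop : Measurable (fun y : ℂ => |Real.log ‖x - y‖|)).aestronglyMeasurable
        · rw [Real.norm_eq_abs, Real.norm_eq_abs, abs_abs]
      have h2 : LocallyIntegrable (fun y : ℂ => (1 / 2 : ℝ) * Real.log (‖x - y‖ ^ 2 + 1)) volume := by
        refine Continuous.locallyIntegrable ?_
        refine continuous_const.mul (Continuous.log (by fun_prop) fun y => ?_)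
        positivity
      exact int_mul (h1.add h2) hfd.abs (hfc.comp_left (g := fun t => |t|) (by simp))
    · filter_upwards [hae] with y hy
      rw [norm_mul, Real.norm_eq_abs, Real.norm_eq_abs]
      exact mul_le_mul_of_nonneg_right (GG_bound x (hs0 n) (hs1 n) y hy) (abs_nonneg _)
    · filter_upwards [hae] with y hy
      refine Tendsto.mul_const _ ?_
      have hpos : 0 < ‖x - y‖ := norm_pos_iff.mpr (sub_ne_zero.mpr hy)
      have h1 : Real.log ‖x - y‖ = (1 / 2) * Real.log (‖x - y‖ ^ 2 + 0 ^ 2) := by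
        rw [zero_pow two_ne_zero, add_zero, Real.log_pow]; push_cast; ring
      rw [h1]
      refine Tendsto.const_mul _ ?_
      refine Tendsto.log ?_ (by positivity)
      exact tendsto_const_nhds.add (hslim.pow 2)
  have hR : Tendsto (fun n => ∫ y, inner ℝ (x - y) v / (‖x - y‖ ^ 2 + (s n) ^ 2) * f y) atTop
      (𝓝 (∫ y, inner ℝ (x - y) v / ‖x - y‖ ^ 2 * f y)) := by
    refine tendsto_integral_of_dominated_convergence
      (fun y => |inner ℝ (x - y) v / ‖x - y‖ ^ 2 * f y|) (fun n => ?_) ?_ (fun n => ?_) ?_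
    · have hDc : Continuous (fun y : ℂ => inner ℝ (x - y) v / (‖x - y‖ ^ 2 + (s n) ^ 2)) := by
        refine Continuous.div (by fun_prop) (by fun_prop) (fun y => ?_)
        have := hs0 n
        positivity
      exact (hDc.mul hf.continuous).aestronglyMeasurable
    · exact (int_mul (locInt_grad x v) hf.continuous hc).abs
    · filter_upwards [hae] with y hy
      have hpos : 0 < ‖x - y‖ := norm_pos_iff.mpr (sub_ne_zero.mpr hy)
      rw [Real.norm_eq_abs, abs_mul, abs_mul]
      refine mul_le_mul_of_nonneg_right ?_ (abs_nonneg _)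
      rw [abs_div, abs_div, abs_of_nonneg (by positivity : (0:ℝ) ≤ ‖x - y‖ ^ 2),
        abs_of_nonneg (by positivity : (0:ℝ) ≤ ‖x - y‖ ^ 2 + (s n) ^ 2)]
      refine div_le_div_of_nonneg_left (abs_nonneg _) (by positivity) ?_
      nlinarith [sq_nonneg (s n)]
    · filter_upwards [hae] with y hy
      have hpos : 0 < ‖x - y‖ := norm_pos_iff.mpr (sub_ne_zero.mpr hy)
      refine Tendsto.mul_const _ ?_
      have h1 : ‖x - y‖ ^ 2 = ‖x - y‖ ^ 2 + 0 ^ 2 := by ring
      have h2 : Tendsto (fun n => ‖x - y‖ ^ 2 + (s n) ^ 2) atTop (𝓝 (‖x - y‖ ^ 2 + 0 ^ 2)) :=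
        tendsto_const_nhds.add (hslim.pow 2)
      rw [← h1] at h2
      exact tendsto_const_nhds.div h2 (by positivity)
  have heq : (fun n => ∫ y, GG x (s n) y * fderiv ℝ f y v) =
      fun n => ∫ y, inner ℝ (x - y) v / (‖x - y‖ ^ 2 + (s n) ^ 2) * f y := by
    funext n; exact ibp f hf hc x v (hs0 n)
  rw [heq] at hL
  exact tendsto_nhds_unique hL hR

theorem potd : S_POTD := by
  intro f hf hc
  refine ⟨?_, fun x v => fderiv_pot_apply f hf hc x v,
    fun x v => int_mul (locInt_grad x v) hf.continuous hc, fun x v => ?_⟩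
  · have e : pot f = fun x => -(1 / (2 * Real.pi)) *
      ((fun z : ℂ => Real.log ‖z‖) ⋆[ContinuousLinearMap.mul ℝ ℝ, volume] f) x := by
      funext y; exact pot_eq f y
    rw [e]
    exact contDiff_const.mul (hc.contDiff_convolution_right (ContinuousLinearMap.mul ℝ ℝ)
      (locInt_ker intOn_log) hf)
  · rw [fderiv_pot_apply f hf hc x v]
    unfold pot
    rw [ibp_limit f hf hc x v]

end Pool.Agent.W67.PS
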